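import Mathlib
import Pool.Agent.H.MP_6abe48_pr.C

namespace Pool.Agent.Results.MP_6abe48_pr.Yes

open MeasureTheory ProbabilityTheory
open scoped ENNReal

/-- The walk from `x` that jumps at time `t` from `v` to `η t v`. -/
def walk {V : Type} (x : V) (η : ℕ → V → V) : ℕ → V
  | 0 => x
  | t + 1 => η t (walk x η t)

/-- Admissible environment laws. -/
def Env (ν : Measure ℝ) : Prop :=
  IsProbabilityMeasure ν ∧ Integrable id ν ∧ ∫ t, t ∂ν = 0 ∧ Var[id; ν] = 1 ∧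
    ∀ β : ℝ, 0 < β → Integrable (fun t => Real.exp (β * t)) ν

/-- Normalised partition function; `ω i` is the environment at time `i + 1`. -/
noncomputable def W {V : Type} [MeasurableSpace V] (κ : V → Measure V) (ν : Measure ℝ) (β : ℝ)
    (n : ℕ) (x : V) (ω : ℕ → V → ℝ) : ℝ≥0∞ :=
  (∫⁻ η, ENNReal.ofReal (Real.exp (β * ∑ i ∈ Finset.range n, ω i (walk x η (i + 1))))
    ∂(Measure.infinitePi fun _ : ℕ => Measure.infinitePi κ)) *
    ENNReal.ofReal (Real.exp (-(n * Real.log (∫ s, Real.exp (β * s) ∂ν))))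

lemma br {V : Type} (x : V) (η : ℕ → V → V) :
    ∀ t, walk x η t = Pool.Agent.Lib.helper3.SRW.walk x η t
  | 0 => rfl
  | t + 1 => congrArg (η t) (br x η t)

theorem result : (∃ ν, Env ν) ∧ ∃ (V : Type) (G : SimpleGraph V),
    letI : MeasurableSpace V := ⊤
    Countable V ∧ Infinite V ∧ G.Connected ∧ (∀ x, (G.neighborSet x).Finite) ∧
    ∃ κ : V → Measure V, (∀ x, IsProbabilityMeasure (κ x)) ∧ (∀ x y, κ x {y} ≠ 0 ↔ G.Adj x y) ∧
      (∃ π : V → ℝ, (∀ x, 0 < π x) ∧ ∀ x y, π x * (κ x).real {y} = π y * (κ y).real {x}) ∧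
      (∀ x, ∀ᵐ η ∂(Measure.infinitePi fun _ : ℕ => Measure.infinitePi κ),
        ∃ m, walk x η (m + 1) = x) ∧
      ∀ ν, Env ν → ∃ β : ℝ, 0 < β ∧ ∀ x, ⨆ n, ∫⁻ ω, W κ ν β n x ω ^ 2
        ∂(Measure.infinitePi fun _ : ℕ => Measure.infinitePi fun _ : V => ν) < ∞ := by
  simp only [W, br]
  exact Pool.Agent.H.MP_6abe48_pr.main

end Pool.Agent.Results.MP_6abe48_pr.Yes
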